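import Mathlib

/-! Definitions for the Herglotz measures of the class `M` on the unit ball of `ℂⁿ`. -/

namespace Pool.Agent.Lib.MP_ab521b_an

open MeasureTheory Metric

/-- `ℂⁿ` with the Euclidean norm. -/
abbrev Cn (n : ℕ) : Type := EuclideanSpace ℂ (Fin n)

/-- The unit sphere of `ℂⁿ`. -/
abbrev Sph (n : ℕ) : Type := sphere (0 : Cn n) 1

/-- `⟨z, w⟩ = ∑ z_j conj w_j`. -/
noncomputable def herm {n : ℕ} (z w : Cn n) : ℂ := ∑ j, z j * (starRingEnd ℂ) (w j)

/-- The cone measure on the unit sphere induced by `μ`, divided by its total mass. -/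
noncomputable def normalizedCone {F : Type} [NormedAddCommGroup F] [NormedSpace ℝ F]
    [MeasurableSpace F] (μ : Measure F) : Measure (sphere (0 : F) 1) :=
  (μ.toSphere Set.univ)⁻¹ • μ.toSphere

/-- The normalized surface measure on the sphere: the normalized cone measure of a Haar (Lebesgue)
measure. -/
noncomputable def sigma (n : ℕ) : Measure (Sph n) :=
  normalizedCone (Measure.addHaar : Measure (Cn n))

/-- The class `M`. -/
def classM (n : ℕ) : Set (Cn n → Cn n) :=
  {f | DifferentiableOn ℂ f (ball 0 1) ∧ f 0 = 0 ∧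
    HasFDerivAt f (ContinuousLinearMap.id ℂ (Cn n)) 0 ∧
    ∀ z ∈ ball (0 : Cn n) 1, z ≠ 0 → 0 < (herm (f z) z).re}

/-- The span `E` of the functions `conj u_k * u^α` and `u_k * conj u^α`, `α ≠ 0`. -/
def spanE (n : ℕ) : Submodule ℂ (Sph n → ℂ) :=
  Submodule.span ℂ {p | ∃ (k : Fin n) (α : Fin n → ℕ), α ≠ 0 ∧
    ((p = fun u => (starRingEnd ℂ) (u.1 k) * ∏ i, u.1 i ^ α i) ∨
      (p = fun u => u.1 k * ∏ i, (starRingEnd ℂ) (u.1 i) ^ α i))}

/-- The functional `Λ` on `C(Y)` is integration against `p dμ`. -/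
def Represents {Y : Type} [TopologicalSpace Y] [MeasurableSpace Y] (Λ : WeakDual ℂ C(Y, ℂ))
    (p : Y → ℂ) (μ : Measure Y) : Prop :=
  ∀ g : C(Y, ℂ), Λ g = ∫ u, g u * p u ∂μ

/-- The measures `p dσ`, `p ∈ E`, as elements of the dual of `C(Y)` with the weak-star topology. -/
def densities {Y : Type} [TopologicalSpace Y] [MeasurableSpace Y] (E : Set (Y → ℂ))
    (σ : Measure Y) : Set (WeakDual ℂ C(Y, ℂ)) :=
  {Λ | ∃ p ∈ E, Represents Λ p σ}

/-- `μ` lies in the weak-star closure of the measures `p dσ`, `p ∈ E`. -/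
def InWeakClosure {Y : Type} [TopologicalSpace Y] [MeasurableSpace Y] (E : Set (Y → ℂ))
    (σ μ : Measure Y) : Prop :=
  ∃ Λ ∈ closure (densities E σ), Represents Λ (fun _ => 1) μ

/-- `P_E(S)`: the probability measures in the weak-star closure of `{p dσ : p ∈ E}`. -/
def PE (n : ℕ) : Set (Measure (Sph n)) :=
  {μ | IsProbabilityMeasure μ ∧ InWeakClosure (spanE n : Set (Sph n → ℂ)) (sigma n) μ}

/-- The kernel of the integral representation. -/
noncomputable def kernel {n : ℕ} (z u : Cn n) : Cn n :=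
  (2 * n / (1 - herm z u) ^ (n + 1) : ℂ) • (u - z) - (2 * n : ℂ) • u - z

/-- `P_H(S)`: the measures in `P_E(S)` that represent some `f` in the class `M`. -/
def PH (n : ℕ) : Set (Measure (Sph n)) :=
  {μ | μ ∈ PE n ∧ ∃ f ∈ classM n, ∀ z ∈ ball (0 : Cn n) 1, f z = ∫ u, kernel z u.1 ∂μ}

/-- A subset `V` of `ℂⁿ` is `P_H`-null if its trace on the sphere is null for all of `P_H(S)`. -/
def IsPHNull {n : ℕ} (V : Set (Cn n)) : Prop :=
  ∀ μ ∈ PH n, μ {u : Sph n | u.1 ∈ V} = 0

/-- The complex dimensions of the `P_H`-null complex subspaces. -/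
def complexNullDims (n : ℕ) : Set ℕ :=
  {d | ∃ V : Submodule ℂ (Cn n), Module.finrank ℂ V = d ∧ IsPHNull (V : Set (Cn n))}

/-- The real dimensions of the `P_H`-null real subspaces. -/
def realNullDims (n : ℕ) : Set ℕ :=
  {d | ∃ V : Submodule ℝ (Cn n), Module.finrank ℝ V = d ∧ IsPHNull (V : Set (Cn n))}

end Pool.Agent.Lib.MP_ab521b_an
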