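import Mathlib
import Pool.Agent.Lib.MP_ab521b_an.Defs

/-! Invariance of the surface measure and integration by parts on the sphere. -/

namespace Pool.Agent.Lib.MP_ab521b_an

open MeasureTheory Metric MvPolynomial
open scoped Pointwise

variable {n : ℕ}

lemma sigma_prob (hn : 0 < n) : IsProbabilityMeasure (sigma n) := by
  have : Nonempty (Fin n) := ⟨⟨0, hn⟩⟩
  constructor
  unfold sigma normalizedCone
  rw [Measure.smul_apply, smul_eq_mul]
  refine ENNReal.inv_mul_cancel ?_ (measure_ne_top _ _)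
  rw [Ne, Measure.measure_univ_eq_zero]
  exact Measure.toSphere_ne_zero _

instance sigma_finite : IsFiniteMeasure (sigma n) := by
  constructor
  unfold sigma normalizedCone
  rw [Measure.smul_apply, smul_eq_mul]
  exact lt_of_le_of_lt (ENNReal.inv_mul_le_one _) ENNReal.one_lt_top

/-- the action of an isometry on the sphere -/
noncomputable def sphMap (f : Cn n ≃ₗᵢ[ℝ] Cn n) (u : Sph n) : Sph n :=
  ⟨f u.1, by rw [mem_sphere_zero_iff_norm, f.norm_map]; exact norm_eq_of_mem_sphere u⟩

lemma continuous_sphMap (f : Cn n ≃ₗᵢ[ℝ] Cn n) : Continuous (sphMap f) :=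
  (f.continuous.comp continuous_subtype_val).subtype_mk _

lemma haar_preimage (f : Cn n ≃ₗᵢ[ℝ] Cn n) (s : Set (Cn n)) :
    (Measure.addHaar : Measure (Cn n)) (f ⁻¹' s) = Measure.addHaar s := by
  have h := fun s => Measure.addHaar_preimage_linearEquiv (Measure.addHaar : Measure (Cn n))
    f.toLinearEquiv s
  have h1 := h (ball 0 1)
  have h2 : (f.toLinearEquiv : Cn n → Cn n) ⁻¹' ball 0 1 = ball 0 1 := by
    ext x; simp
  rw [h2] at h1
  have h3 : (Measure.addHaar : Measure (Cn n)) (ball 0 1) ≠ 0 :=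
    (measure_ball_pos _ _ one_pos).ne'
  have h4 : (Measure.addHaar : Measure (Cn n)) (ball 0 1) ≠ ⊤ := measure_ball_lt_top.ne
  have h5 := (ENNReal.mul_left_inj h3 h4).mp ((one_mul _).trans h1)
  have h6 := h s
  rw [← h5, one_mul] at h6
  exact h6

lemma sigma_map (f : Cn n ≃ₗᵢ[ℝ] Cn n) : (sigma n).map (sphMap f) = sigma n := by
  ext s hs
  rw [Measure.map_apply (continuous_sphMap f).measurable hs]
  unfold sigma normalizedCone
  rw [Measure.smul_apply, Measure.smul_apply, Measure.toSphere_apply' _ hs,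
    Measure.toSphere_apply' _ ((continuous_sphMap f).measurable hs),
    ← haar_preimage f (Set.Ioo (0 : ℝ) 1 • (Subtype.val '' s))]
  congr 3
  ext x
  simp only [Set.mem_preimage, Set.mem_smul, Set.mem_image]
  constructor
  · rintro ⟨r, hr, y, ⟨u, hu, rfl⟩, rfl⟩
    exact ⟨r, hr, _, ⟨sphMap f u, hu, rfl⟩, by simp [sphMap]⟩
  · rintro ⟨r, hr, y, ⟨u, hu, rfl⟩, h⟩
    refine ⟨r, hr, _, ⟨sphMap f.symm u, ?_, rfl⟩, ?_⟩
    · have : sphMap f (sphMap f.symm u) = u := by
        ext1; simp [sphMap]
      rwa [this]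
    · apply f.injective
      rw [← h]; simp [sphMap]

lemma integral_sphMap (f : Cn n ≃ₗᵢ[ℝ] Cn n) (g : Sph n → ℂ) (hg : Continuous g) :
    ∫ u, g (sphMap f u) ∂(sigma n) = ∫ u, g u ∂(sigma n) := by
  conv_rhs => rw [← sigma_map f]
  rw [integral_map (continuous_sphMap f).measurable.aemeasurable hg.aestronglyMeasurable]

/-- polynomials in `u` and `conj u` -/
abbrev Pol (n : ℕ) : Type := MvPolynomial (Fin n ⊕ Fin n) ℂ

/-- evaluation -/
noncomputable def ev (u : Cn n) : Pol n →ₐ[ℂ] ℂ :=
  aeval (Sum.elim (fun i => u i) (fun i => (starRingEnd ℂ) (u i)))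

@[simp] lemma ev_inl (u : Cn n) (i : Fin n) : ev u (X (Sum.inl i)) = u i := by simp [ev]

@[simp] lemma ev_inr (u : Cn n) (i : Fin n) : ev u (X (Sum.inr i)) = (starRingEnd ℂ) (u i) := by simp [ev]

@[simp] lemma ev_C (u : Cn n) (a : ℂ) : ev u (C a) = a := by simp [ev]

lemma continuous_ev (G : Pol n) : Continuous fun u : Cn n => ev u G := by
  induction G using MvPolynomial.induction_on with
  | C a => simp only [ev_C]; exact continuous_const
  | add p q hp hq => simp only [map_add]; exact hp.add hq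
  | mul_X p i hp =>
    simp only [map_mul]
    refine hp.mul ?_
    rcases i with i | i
    · simp only [ev_inl]; fun_prop
    · simp only [ev_inr]; fun_prop

lemma continuous_ev' (G : Pol n) : Continuous fun u : Sph n => ev u.1 G :=
  (continuous_ev G).comp continuous_subtype_val

lemma integrable_of_continuous {F : Type*} [NormedAddCommGroup F] (μ : Measure (Sph n))
    [IsFiniteMeasure μ] {g : Sph n → F} (hg : Continuous g) : Integrable g μ :=
  hg.integrable_of_hasCompactSupport (HasCompactSupport.of_compactSpace _)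

lemma exists_bound (g : Sph n → ℂ) (hg : Continuous g) : ∃ M : ℝ, ∀ u, ‖g u‖ ≤ M :=
  ⟨‖(⟨g, hg⟩ : C(Sph n, ℂ))‖, fun u => (⟨g, hg⟩ : C(Sph n, ℂ)).norm_coe_le_norm u⟩

lemma hasDerivAt_ev (D : Derivation ℂ (Pol n) (Pol n)) (γ : ℝ → Cn n) (t : ℝ)
    (h1 : ∀ i, HasDerivAt (fun s => γ s i) (ev (γ t) (D (X (Sum.inl i)))) t)
    (h2 : ∀ i, HasDerivAt (fun s => (starRingEnd ℂ) (γ s i)) (ev (γ t) (D (X (Sum.inr i)))) t)
    (G : Pol n) : HasDerivAt (fun s => ev (γ s) G) (ev (γ t) (D G)) t := by
  induction G using MvPolynomial.induction_on with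
  | C a =>
    simp only [ev_C]
    rw [derivation_C, map_zero]
    exact hasDerivAt_const _ _
  | add p q hp hq => simp only [map_add]; exact hp.add hq
  | mul_X p i hp =>
    simp only [map_mul, Derivation.leibniz, smul_eq_mul, map_add]
    rcases i with i | i
    · have := hp.mul (h1 i)
      simp only [ev_inl]
      exact this.congr_deriv (by ring)
    · have := hp.mul (h2 i)
      simp only [ev_inr]
      exact this.congr_deriv (by ring)

/-- the tangential field `conj u_k ∂_j - conj u_j ∂_k` -/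
noncomputable def Lh (j k : Fin n) : Derivation ℂ (Pol n) (Pol n) :=
  (X (Sum.inr k) : Pol n) • pderiv (Sum.inl j) - (X (Sum.inr j) : Pol n) • pderiv (Sum.inl k)

/-- the conjugate field -/
noncomputable def Lb (j k : Fin n) : Derivation ℂ (Pol n) (Pol n) :=
  (X (Sum.inl k) : Pol n) • pderiv (Sum.inr j) - (X (Sum.inl j) : Pol n) • pderiv (Sum.inr k)

lemma Lh_apply (j k : Fin n) (G : Pol n) :
    Lh j k G = X (Sum.inr k) * pderiv (Sum.inl j) G - X (Sum.inr j) * pderiv (Sum.inl k) G := by
  simp [Lh]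

lemma Lb_apply (j k : Fin n) (G : Pol n) :
    Lb j k G = X (Sum.inl k) * pderiv (Sum.inr j) G - X (Sum.inl j) * pderiv (Sum.inr k) G := by
  simp [Lb]

lemma Lh_inl (j k i : Fin n) : Lh j k (X (Sum.inl i))
    = (if i = j then X (Sum.inr k) else 0) - (if i = k then X (Sum.inr j) else 0) := by
  rw [Lh_apply, pderiv_X, pderiv_X]
  simp [Pi.single_apply]

lemma Lh_inr (j k i : Fin n) : Lh j k (X (Sum.inr i)) = 0 := by
  rw [Lh_apply, pderiv_X, pderiv_X]
  simp

lemma Lb_inl (j k i : Fin n) : Lb j k (X (Sum.inl i)) = 0 := by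
  rw [Lb_apply, pderiv_X, pderiv_X]
  simp

lemma Lb_inr (j k i : Fin n) : Lb j k (X (Sum.inr i))
    = (if i = j then X (Sum.inl k) else 0) - (if i = k then X (Sum.inl j) else 0) := by
  rw [Lb_apply, pderiv_X, pderiv_X]
  simp [Pi.single_apply]

/-- a rotation in coordinates -/
noncomputable def rotFun (j k : Fin n) (c : ℂ) (t : ℝ) (u : Cn n) : Cn n :=
  WithLp.toLp 2 fun i => if i = j then Real.cos t * u j + Real.sin t * (c * (starRingEnd ℂ) (u k))
    else if i = k then Real.cos t * u k - Real.sin t * (c * (starRingEnd ℂ) (u j)) else u i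

lemma rotFun_apply (j k : Fin n) (c : ℂ) (t : ℝ) (u : Cn n) (i : Fin n) :
    rotFun j k c t u i = if i = j then Real.cos t * u j + Real.sin t * (c * (starRingEnd ℂ) (u k))
    else if i = k then Real.cos t * u k - Real.sin t * (c * (starRingEnd ℂ) (u j)) else u i := rfl

lemma norm_rotFun {j k : Fin n} (hjk : j ≠ k) {c : ℂ} (hc : c * (starRingEnd ℂ) c = 1) (t : ℝ) (u : Cn n) :
    ‖rotFun j k c t u‖ = ‖u‖ := by
  rw [EuclideanSpace.norm_eq, EuclideanSpace.norm_eq]
  congr 1
  rw [← sub_eq_zero, ← Finset.sum_sub_distrib, Fintype.sum_eq_add j k hjk]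
  · rw [rotFun_apply, rotFun_apply, if_pos rfl, if_neg hjk.symm, if_pos rfl]
    simp only [← Complex.normSq_eq_norm_sq]
    apply Complex.ofReal_injective
    push_cast
    simp only [← Complex.mul_conj, map_add, map_sub, map_mul, Complex.conj_conj,
      ← Complex.ofReal_cos, ← Complex.ofReal_sin, Complex.conj_ofReal]
    have h : (Real.sin t : ℂ) ^ 2 + (Real.cos t : ℂ) ^ 2 = 1 := by
      exact_mod_cast Real.sin_sq_add_cos_sq t
    linear_combination (u j * (starRingEnd ℂ) (u j) + u k * (starRingEnd ℂ) (u k)) * h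
      + (Real.sin t : ℂ) ^ 2 * (u j * (starRingEnd ℂ) (u j) + u k * (starRingEnd ℂ) (u k)) * hc
  · rintro i ⟨h1, h2⟩
    rw [rotFun_apply, if_neg h1, if_neg h2, sub_self]

/-- the rotation as an isometry -/
noncomputable def rot {j k : Fin n} (hjk : j ≠ k) {c : ℂ} (hc : c * (starRingEnd ℂ) c = 1) (t : ℝ) :
    Cn n ≃ₗᵢ[ℝ] Cn n :=
  LinearIsometry.toLinearIsometryEquiv
    { toFun := rotFun j k c t
      map_add' := fun u v => by
        ext i
        simp only [rotFun_apply, PiLp.add_apply, map_add]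
        split_ifs <;> ring
      map_smul' := fun a u => by
        ext i
        simp only [rotFun_apply, PiLp.smul_apply, Complex.real_smul, map_mul, Complex.conj_ofReal,
          RingHom.id_apply]
        split_ifs <;> ring
      norm_map' := norm_rotFun hjk hc t } rfl

lemma rot_apply {j k : Fin n} (hjk : j ≠ k) {c : ℂ} (hc : c * (starRingEnd ℂ) c = 1) (t : ℝ) (u : Cn n) :
    rot hjk hc t u = rotFun j k c t u := rfl

lemma hasDerivAt_rot {j k : Fin n} (hjk : j ≠ k) {c : ℂ} (hc : c * (starRingEnd ℂ) c = 1) (u : Cn n) (t : ℝ)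
    (G : Pol n) : HasDerivAt (fun s => ev (rotFun j k c s u) G)
      (ev (rotFun j k c t u) ((c • Lh j k + (starRingEnd ℂ) c • Lb j k) G)) t := by
  have hcos : HasDerivAt (fun s : ℝ => (Real.cos s : ℂ)) (-(Real.sin t) : ℝ) t :=
    (Real.hasDerivAt_cos t).ofReal_comp
  have hsin : HasDerivAt (fun s : ℝ => (Real.sin s : ℂ)) (Real.cos t : ℝ) t :=
    (Real.hasDerivAt_sin t).ofReal_comp
  have h1 : ∀ i, HasDerivAt (fun s => rotFun j k c s u i)
      (ev (rotFun j k c t u) ((c • Lh j k + (starRingEnd ℂ) c • Lb j k) (X (Sum.inl i)))) t := by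
    intro i
    simp only [Derivation.add_apply, Derivation.smul_apply, Lh_inl, Lb_inl, smul_zero, add_zero,
      map_smul, map_sub, smul_eq_mul, apply_ite (ev (rotFun j k c t u)), ev_inr, map_zero]
    by_cases hj : i = j
    · subst hj
      simp only [rotFun_apply, if_true, if_neg hjk, if_neg hjk.symm]
      refine ((hcos.mul_const (u i)).add (hsin.mul_const (c * (starRingEnd ℂ) (u k)))).congr_deriv ?_
      simp only [map_sub, map_mul, Complex.conj_ofReal, Complex.conj_conj]
      push_cast
      linear_combination ((Complex.sin t) * u i) * hc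
    · by_cases hk : i = k
      · subst hk
        simp only [rotFun_apply, if_true, if_neg hjk.symm]
        refine ((hcos.mul_const (u i)).sub
          (hsin.mul_const (c * (starRingEnd ℂ) (u j)))).congr_deriv ?_
        simp only [map_add, map_mul, Complex.conj_ofReal, Complex.conj_conj]
        push_cast
        linear_combination ((Complex.sin t) * u i) * hc
      · simp only [rotFun_apply, if_neg hj, if_neg hk, sub_self, mul_zero]
        exact hasDerivAt_const _ _
  refine hasDerivAt_ev _ _ t h1 (fun i => ?_) G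
  refine (h1 i).star.congr_deriv ?_
  simp only [Derivation.add_apply, Derivation.smul_apply, Lh_inl, Lb_inl, Lh_inr, Lb_inr, smul_zero,
    add_zero, zero_add, map_smul, map_sub, smul_eq_mul, apply_ite (ev (rotFun j k c t u)), ev_inr,
    ev_inl, map_zero, Complex.star_def, map_mul, apply_ite (starRingEnd ℂ), Complex.conj_conj]

lemma integral_rot_deriv {j k : Fin n} (hjk : j ≠ k) {c : ℂ} (hc : c * (starRingEnd ℂ) c = 1) (G : Pol n) :
    ∫ u, ev u.1 ((c • Lh j k + (starRingEnd ℂ) c • Lb j k) G) ∂(sigma n) = 0 := by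
  set G' := (c • Lh j k + (starRingEnd ℂ) c • Lb j k) G with hG'
  obtain ⟨M, hM⟩ := exists_bound _ (continuous_ev' G')
  have h := (hasDerivAt_integral_of_dominated_loc_of_deriv_le (μ := sigma n) (x₀ := (0:ℝ))
    (s := Set.univ) (F := fun t u => ev (sphMap (rot hjk hc t) u).1 G)
    (F' := fun t u => ev (sphMap (rot hjk hc t) u).1 G') (bound := fun _ => M) Filter.univ_mem
    (Filter.Eventually.of_forall fun t =>
      ((continuous_ev' G).comp (continuous_sphMap _)).aestronglyMeasurable)
    (integrable_of_continuous _ ((continuous_ev' G).comp (continuous_sphMap _)))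
    ((continuous_ev' G').comp (continuous_sphMap _)).aestronglyMeasurable
    (Filter.Eventually.of_forall fun u t _ => hM _) (integrable_const _)
    (Filter.Eventually.of_forall fun u t _ => hasDerivAt_rot hjk hc u.1 t G)).2
  have h1 : (fun t => ∫ u, ev (sphMap (rot hjk hc t) u).1 G ∂(sigma n))
      = fun _ => ∫ u, ev u.1 G ∂(sigma n) := by
    ext t
    exact integral_sphMap _ (fun u => ev u.1 G) (continuous_ev' G)
  rw [h1] at h
  rw [← integral_sphMap (rot hjk hc 0) (fun u => ev u.1 G') (continuous_ev' G')]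
  exact h.unique (hasDerivAt_const _ _)

lemma integral_L (j k : Fin n) (G : Pol n) :
    ∫ u, ev u.1 (Lh j k G) ∂(sigma n) = 0 ∧ ∫ u, ev u.1 (Lb j k G) ∂(sigma n) = 0 := by
  by_cases hjk : j = k
  · subst hjk
    simp [Lh_apply, Lb_apply]
  have h1 := integral_rot_deriv hjk (c := 1) (by simp) G
  have h2 := integral_rot_deriv hjk (c := Complex.I) (by simp) G
  simp only [Derivation.add_apply, Derivation.smul_apply, map_add, map_smul, smul_eq_mul] at h1 h2
  rw [integral_add ((integrable_of_continuous _ (continuous_ev' _)).const_mul _)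
    ((integrable_of_continuous _ (continuous_ev' _)).const_mul _), integral_const_mul,
    integral_const_mul] at h1 h2
  simp only [map_one, one_mul, Complex.conj_I] at h1 h2
  have hI : Complex.I * Complex.I = -1 := Complex.I_mul_I
  constructor
  · linear_combination (1 / 2) * h1 - (Complex.I / 2) * h2
      + (1 / 2 * (∫ u, ev u.1 (Lh j k G) ∂(sigma n) - ∫ u, ev u.1 (Lb j k G) ∂(sigma n))) * hI
  · linear_combination (1 / 2) * h1 + (Complex.I / 2) * h2
      - (1 / 2 * (∫ u, ev u.1 (Lh j k G) ∂(sigma n) - ∫ u, ev u.1 (Lb j k G) ∂(sigma n))) * hI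

lemma integral_by_parts (D : Derivation ℂ (Pol n) (Pol n))
    (hD : ∀ G, ∫ u, ev u.1 (D G) ∂(sigma n) = 0) (a b : Pol n) :
    ∫ u, ev u.1 (D a * b) ∂(sigma n) = - ∫ u, ev u.1 (a * D b) ∂(sigma n) := by
  have h := hD (a * b)
  rw [Derivation.leibniz, smul_eq_mul, smul_eq_mul, mul_comm b] at h
  simp only [map_add] at h
  rw [integral_add (integrable_of_continuous _ (continuous_ev' _))
    (integrable_of_continuous _ (continuous_ev' _))] at h
  linear_combination h

end Pool.Agent.Lib.MP_ab521b_an
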