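import Mathlib
import Pool.Agent.Lib.MP_ab521b_an.Sphere

/-! Every measure in `P_E(S)` vanishes on real hyperplane sections. -/

namespace Pool.Agent.Lib.MP_ab521b_an

open MeasureTheory Metric MvPolynomial Filter Topology

variable {n : ℕ}

/-- degree in the holomorphic variables -/
def wH : Fin n ⊕ Fin n → ℤ := Sum.elim (fun _ => 1) (fun _ => 0)

/-- degree in the antiholomorphic variables -/
def wB : Fin n ⊕ Fin n → ℤ := Sum.elim (fun _ => 0) (fun _ => 1)

lemma eq_zero_of_neg_weight {w : Fin n ⊕ Fin n → ℤ} (hw : ∀ i, 0 ≤ w i) {G : Pol n}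
    (h : G.IsWeightedHomogeneous w (-1)) : G = 0 := by
  ext d
  by_contra hd
  have h1 := h hd
  have h2 : 0 ≤ Finsupp.weight w d := by
    rw [Finsupp.weight_apply]
    exact Finset.sum_nonneg fun i _ => smul_nonneg (Nat.zero_le _) (hw i)
  omega

lemma wh_sub {w : Fin n ⊕ Fin n → ℤ} {d : ℤ} {a b : Pol n} (ha : a.IsWeightedHomogeneous w d)
    (hb : b.IsWeightedHomogeneous w d) : (a - b).IsWeightedHomogeneous w d :=
  (weightedHomogeneousSubmodule ℂ w d).sub_mem ha hb

lemma wh_cast {w : Fin n ⊕ Fin n → ℤ} {d e : ℤ} {a : Pol n} (ha : a.IsWeightedHomogeneous w d)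
    (h : d = e) : a.IsWeightedHomogeneous w e := h ▸ ha

lemma Lh_wH (j k : Fin n) {G : Pol n} {d : ℤ} (h : G.IsWeightedHomogeneous wH d) :
    (Lh j k G).IsWeightedHomogeneous wH (d - 1) := by
  rw [Lh_apply]
  refine wh_sub ?_ ?_ <;>
  exact wh_cast ((isWeightedHomogeneous_X ℂ wH _).mul (h.pderiv (n' := d - 1) (by simp [wH])))
    (by simp [wH])

lemma Lb_wH (j k : Fin n) {G : Pol n} {d : ℤ} (h : G.IsWeightedHomogeneous wH d) :
    (Lb j k G).IsWeightedHomogeneous wH (d + 1) := by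
  rw [Lb_apply]
  refine wh_sub ?_ ?_ <;>
  exact wh_cast ((isWeightedHomogeneous_X ℂ wH _).mul (h.pderiv (n' := d) (by simp [wH])))
    (by simp [wH, add_comm])

lemma Lb_wB (j k : Fin n) {G : Pol n} {d : ℤ} (h : G.IsWeightedHomogeneous wB d) :
    (Lb j k G).IsWeightedHomogeneous wB (d - 1) := by
  rw [Lb_apply]
  refine wh_sub ?_ ?_ <;>
  exact wh_cast ((isWeightedHomogeneous_X ℂ wB _).mul (h.pderiv (n' := d - 1) (by simp [wB])))
    (by simp [wB])

lemma kill_H (j k : Fin n) {G : Pol n} (h : G.IsWeightedHomogeneous wH 1) :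
    Lh j k (Lh j k (Lh j k (Lh j k (Lb j k (Lb j k G))))) = 0 :=
  eq_zero_of_neg_weight (w := wH) (by rintro (i | i) <;> simp [wH])
    (wh_cast (Lh_wH j k (Lh_wH j k (Lh_wH j k (Lh_wH j k (Lb_wH j k (Lb_wH j k h)))))) (by norm_num))

lemma kill_B (j k : Fin n) {G : Pol n} (h : G.IsWeightedHomogeneous wB 1) :
    Lh j k (Lh j k (Lh j k (Lh j k (Lb j k (Lb j k G))))) = 0 := by
  have : Lb j k (Lb j k G) = 0 :=
    eq_zero_of_neg_weight (w := wB) (by rintro (i | i) <;> simp [wB])
      (wh_cast (Lb_wB j k (Lb_wB j k h)) (by norm_num))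
  simp [this]

/-- the adjoint operator -/
noncomputable def Pop (j k : Fin n) (c : Pol n) : Pol n :=
  Lb j k (Lb j k (Lh j k (Lh j k (Lh j k (Lh j k c)))))

lemma Pop_orth (j k : Fin n) (c p : Pol n)
    (hp : Lh j k (Lh j k (Lh j k (Lh j k (Lb j k (Lb j k p))))) = 0) :
    ∫ u, ev u.1 (Pop j k c * p) ∂(sigma n) = 0 := by
  have h1 := integral_by_parts (Lh j k) (fun G => (integral_L j k G).1)
  have h2 := integral_by_parts (Lb j k) (fun G => (integral_L j k G).2)
  rw [Pop, h2, h2, h1, h1, h1, h1, hp]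
  simp

lemma Pop_orth_span (j k : Fin n) (c : Pol n) {p : Sph n → ℂ} (hp : p ∈ spanE n) :
    Continuous p ∧ ∫ u, ev u.1 (Pop j k c) * p u ∂(sigma n) = 0 := by
  induction hp using Submodule.span_induction with
  | mem p hp =>
    obtain ⟨l, α, -, rfl | rfl⟩ := hp
    · refine ⟨by fun_prop, ?_⟩
      have h : (X (Sum.inr l) * ∏ i, X (Sum.inl i) ^ α i : Pol n).IsWeightedHomogeneous wB 1 := by
        refine wh_cast ((isWeightedHomogeneous_X ℂ wB _).mul
          (IsWeightedHomogeneous.prod Finset.univ _ (fun _ => (0:ℤ)) fun i _ => ?_)) (by simp [wB])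
        exact wh_cast ((isWeightedHomogeneous_X ℂ wB (Sum.inl i)).pow (α i)) (by simp [wB])
      have h1 := Pop_orth j k c _ (kill_B j k h)
      simpa using h1
    · refine ⟨by fun_prop, ?_⟩
      have h : (X (Sum.inl l) * ∏ i, X (Sum.inr i) ^ α i : Pol n).IsWeightedHomogeneous wH 1 := by
        refine wh_cast ((isWeightedHomogeneous_X ℂ wH _).mul
          (IsWeightedHomogeneous.prod Finset.univ _ (fun _ => (0:ℤ)) fun i _ => ?_)) (by simp [wH])
        exact wh_cast ((isWeightedHomogeneous_X ℂ wH (Sum.inr i)).pow (α i)) (by simp [wH])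
      have h1 := Pop_orth j k c _ (kill_H j k h)
      simpa using h1
  | zero => exact ⟨continuous_const, by simp⟩
  | add p q _ _ hp hq =>
    refine ⟨hp.1.add hq.1, ?_⟩
    simp only [Pi.add_apply, mul_add]
    rw [integral_add (f := fun u : Sph n => ev u.1 (Pop j k c) * p u)
      (g := fun u : Sph n => ev u.1 (Pop j k c) * q u)
      (integrable_of_continuous _ ((continuous_ev' _).mul hp.1))
      (integrable_of_continuous _ ((continuous_ev' _).mul hq.1)), hp.2, hq.2, add_zero]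
  | smul a p _ hp =>
    refine ⟨hp.1.const_smul a, ?_⟩
    simp only [Pi.smul_apply, smul_eq_mul, mul_left_comm _ a]
    rw [integral_const_mul, hp.2, mul_zero]

lemma PE_Pop {μ : Measure (Sph n)} (hμ : μ ∈ PE n) (j k : Fin n) (c : Pol n) :
    ∫ u, ev u.1 (Pop j k c) ∂μ = 0 := by
  obtain ⟨-, Λ, hΛ, h⟩ := hμ
  set g : C(Sph n, ℂ) := ⟨fun u => ev u.1 (Pop j k c), continuous_ev' _⟩ with hg
  have h1 : IsClosed {Λ : WeakDual ℂ C(Sph n, ℂ) | Λ g = 0} :=
    isClosed_eq (WeakDual.eval_continuous g) continuous_const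
  have h2 : densities (spanE n : Set (Sph n → ℂ)) (sigma n) ⊆ {Λ : WeakDual ℂ C(Sph n, ℂ) | Λ g = 0} := by
    rintro Λ' ⟨p, hp, hΛ'⟩
    exact (hΛ' g).trans (Pop_orth_span j k c hp).2
  have h3 := (h g).symm.trans (closure_minimal h2 h1 hΛ)
  simp only [mul_one] at h3
  exact h3

/-! ### antiderivatives -/

lemma exists_antider (G : Polynomial ℂ) :
    ∃ F : Polynomial ℂ, Polynomial.derivative F = G ∧ F.eval 0 = 0 := by
  induction G using Polynomial.induction_on' with
  | add p q hp hq =>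
    obtain ⟨F, h1, h2⟩ := hp
    obtain ⟨F', h1', h2'⟩ := hq
    exact ⟨F + F', by simp [h1, h1'], by simp [h2, h2']⟩
  | monomial m a =>
    refine ⟨Polynomial.monomial (m + 1) (a / (m + 1)), ?_, by simp⟩
    rw [Polynomial.derivative_monomial_succ]
    congr 1
    have : ((m:ℂ) + 1) ≠ 0 := by exact_mod_cast Nat.succ_ne_zero m
    field_simp

lemma antider_step (G : ℕ → Polynomial ℂ) (hb : ∀ k (t : ℝ), |t| ≤ 1 → ‖(G k).eval (t:ℂ)‖ ≤ 1)
    (hl : ∀ t : ℝ, |t| ≤ 1 → t ≠ 0 → Tendsto (fun k => (G k).eval (t:ℂ)) atTop (𝓝 0)) :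
    ∃ F : ℕ → Polynomial ℂ, (∀ k, Polynomial.derivative (F k) = G k) ∧
      (∀ k (t : ℝ), |t| ≤ 1 → ‖(F k).eval (t:ℂ)‖ ≤ 1) ∧
      ∀ t : ℝ, |t| ≤ 1 → Tendsto (fun k => (F k).eval (t:ℂ)) atTop (𝓝 0) := by
  choose F hF1 hF2 using fun k => exists_antider (G k)
  have hcont : ∀ k, Continuous fun s : ℝ => (G k).eval (s:ℂ) := fun k =>
    (G k).continuous.comp Complex.continuous_ofReal
  have hint : ∀ k (t : ℝ), (F k).eval (t:ℂ) = ∫ s in (0:ℝ)..t, (G k).eval (s:ℂ) := by
    intro k t
    rw [intervalIntegral.integral_eq_sub_of_hasDerivAt (f := fun s : ℝ => (F k).eval (s:ℂ))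
      (fun s _ => by rw [← hF1 k]; exact ((F k).hasDerivAt (s:ℂ)).comp_ofReal)
      ((hcont k).intervalIntegrable _ _)]
    simp [hF2 k]
  have hmem : ∀ t s : ℝ, |t| ≤ 1 → s ∈ Set.uIoc 0 t → |s| ≤ 1 := by
    intro t s ht hs
    rw [abs_le] at ht ⊢
    rcases Set.mem_uIoc.mp hs with h | h <;> constructor <;> linarith [h.1, h.2]
  refine ⟨F, hF1, fun k t ht => ?_, fun t ht => ?_⟩
  · rw [hint]
    have := intervalIntegral.norm_integral_le_of_norm_le_const (a := 0) (b := t) (C := 1)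
      (f := fun s : ℝ => (G k).eval (s:ℂ)) fun s hs => hb k s (hmem t s ht hs)
    simpa using this.trans (by simpa using ht)
  · simp only [hint]
    have := intervalIntegral.tendsto_integral_filter_of_dominated_convergence (a := 0) (b := t)
      (μ := volume) (f := fun _ => (0:ℂ)) (l := atTop) (F := fun k (s : ℝ) => (G k).eval (s:ℂ))
      (fun _ => 1) (Eventually.of_forall fun k => (hcont k).aestronglyMeasurable)
      (Eventually.of_forall fun k => Eventually.of_forall fun s hs => hb k s (hmem t s ht hs))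
      intervalIntegrable_const (by
        filter_upwards [(volume : Measure ℝ).ae_ne 0] with s hs0 hs
        exact hl s (hmem t s ht hs) hs0)
    simpa using this

lemma antider_iter (m : ℕ) : ∃ F : ℕ → Polynomial ℂ,
    (∀ k, Polynomial.derivative^[m] (F k) = (1 - Polynomial.X ^ 2) ^ k) ∧
    (∀ j ≤ m, ∀ k (t : ℝ), |t| ≤ 1 → ‖(Polynomial.derivative^[j] (F k)).eval (t:ℂ)‖ ≤ 1) ∧
    ∀ j ≤ m, ∀ t : ℝ, |t| ≤ 1 → (j < m ∨ t ≠ 0) →
      Tendsto (fun k => (Polynomial.derivative^[j] (F k)).eval (t:ℂ)) atTop (𝓝 0) := by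
  induction m with
  | zero =>
    have key : ∀ t : ℝ, |t| ≤ 1 → ‖(1 - (t:ℂ) ^ 2)‖ = 1 - t ^ 2 := by
      intro t ht
      have h1 : t ^ 2 ≤ 1 := by rw [← sq_abs]; nlinarith [abs_nonneg t]
      rw [show (1 - (t:ℂ) ^ 2) = ((1 - t ^ 2 : ℝ) : ℂ) by push_cast; ring, Complex.norm_real,
        Real.norm_of_nonneg (by linarith)]
    refine ⟨fun k => (1 - Polynomial.X ^ 2) ^ k, fun k => rfl, fun j hj k t ht => ?_,
      fun j hj t ht h => ?_⟩
    · obtain rfl : j = 0 := by omega
      simp only [Function.iterate_zero, id, Polynomial.eval_pow, Polynomial.eval_sub,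
        Polynomial.eval_one, Polynomial.eval_X, norm_pow]
      refine pow_le_one₀ (norm_nonneg _) ?_
      rw [key t ht]; nlinarith [sq_nonneg t]
    · obtain rfl : j = 0 := by omega
      simp only [Function.iterate_zero, id, Polynomial.eval_pow, Polynomial.eval_sub,
        Polynomial.eval_one, Polynomial.eval_X]
      refine tendsto_pow_atTop_nhds_zero_of_norm_lt_one ?_
      have h0 : t ≠ 0 := h.resolve_left (by omega)
      rw [key t ht]
      have : 0 < t ^ 2 := by positivity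
      linarith
  | succ m ih =>
    obtain ⟨G, h1, h2, h3⟩ := ih
    obtain ⟨F, f1, f2, f3⟩ := antider_step G (h2 0 (Nat.zero_le _))
      (fun t ht h0 => h3 0 (Nat.zero_le _) t ht (Or.inr h0))
    refine ⟨F, fun k => by rw [Function.iterate_succ_apply, f1, h1], fun j hj k t ht => ?_,
      fun j hj t ht h => ?_⟩
    · rcases j with _ | j
      · exact f2 k t ht
      · rw [Function.iterate_succ_apply, f1]; exact h2 j (by omega) k t ht
    · rcases j with _ | j
      · exact f3 t ht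
      · simp only [Function.iterate_succ_apply, f1]
        exact h3 j (by omega) t ht (h.imp_left (by omega))

/-! ### lower order terms -/

/-- the `j`-th derivative composed with `ρ` -/
noncomputable def dcomp (ρ : Pol n) (j : ℕ) (F : Polynomial ℂ) : Pol n :=
  Polynomial.aeval ρ (Polynomial.derivative^[j] F)

/-- operators of order less than `m` -/
noncomputable def low (ρ : Pol n) (m : ℕ) : Submodule (Pol n) (Polynomial ℂ → Pol n) :=
  Submodule.span (Pol n) {φ | ∃ j < m, φ = dcomp ρ j}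

lemma low_mono (ρ : Pol n) (m : ℕ) : low ρ m ≤ low ρ (m + 1) :=
  Submodule.span_mono fun _ ⟨j, hj, h⟩ => ⟨j, by omega, h⟩

lemma D_dcomp (D : Derivation ℂ (Pol n) (Pol n)) (ρ : Pol n) (j : ℕ) (F : Polynomial ℂ) :
    D (dcomp ρ j F) = D ρ * dcomp ρ (j + 1) F := by
  unfold dcomp
  rw [Derivation.map_aeval, Function.iterate_succ_apply', smul_eq_mul, mul_comm]

lemma D_low (D : Derivation ℂ (Pol n) (Pol n)) (ρ : Pol n) (m : ℕ) {φ : Polynomial ℂ → Pol n}
    (h : φ ∈ low ρ m) : (fun F => D (φ F)) ∈ low ρ (m + 1) := by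
  induction h using Submodule.span_induction with
  | mem φ hφ =>
    obtain ⟨j, hj, rfl⟩ := hφ
    have : (fun F => D (dcomp ρ j F)) = D ρ • dcomp ρ (j + 1) := by
      ext1 F; rw [D_dcomp]; rfl
    rw [this]
    exact Submodule.smul_mem _ _ (Submodule.subset_span ⟨j + 1, by omega, rfl⟩)
  | zero =>
    have : (fun F => D ((0 : Polynomial ℂ → Pol n) F)) = 0 := by ext1 F; simp
    rw [this]; exact Submodule.zero_mem _
  | add φ ψ _ _ h1 h2 =>
    have : (fun F => D ((φ + ψ) F)) = (fun F => D (φ F)) + fun F => D (ψ F) := by ext1 F; simp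
    rw [this]; exact Submodule.add_mem _ h1 h2
  | smul a φ h0 h1 =>
    have : (fun F => D ((a • φ) F)) = a • (fun F => D (φ F)) + D a • φ := by
      ext1 F
      simp only [Pi.smul_apply, Pi.add_apply, smul_eq_mul, Derivation.leibniz]
      ring
    rw [this]
    exact Submodule.add_mem _ (Submodule.smul_mem _ _ h1)
      (Submodule.smul_mem _ _ (low_mono ρ m h0))

lemma D_top (D : Derivation ℂ (Pol n) (Pol n)) (ρ : Pol n) (m : ℕ) (T : Polynomial ℂ → Pol n)
    (c : Pol n) (h : T - c • dcomp ρ m ∈ low ρ m) :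
    (fun F => D (T F)) - (D ρ * c) • dcomp ρ (m + 1) ∈ low ρ (m + 1) := by
  have h1 := D_low D ρ m h
  have h2 : (fun F => D (T F)) - (D ρ * c) • dcomp ρ (m + 1)
      = (fun F => D ((T - c • dcomp ρ m) F)) + D c • dcomp ρ m := by
    ext1 F
    simp only [Pi.smul_apply, Pi.add_apply, Pi.sub_apply, smul_eq_mul, map_sub, Derivation.leibniz,
      D_dcomp]
    ring
  rw [h2]
  exact Submodule.add_mem _ h1
    (Submodule.smul_mem _ _ (Submodule.subset_span ⟨m, by omega, rfl⟩))

lemma ev_dcomp (u : Cn n) (ρ : Pol n) (j : ℕ) (F : Polynomial ℂ) :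
    ev u (dcomp ρ j F) = (Polynomial.derivative^[j] F).eval (ev u ρ) := by
  unfold dcomp
  rw [← Polynomial.aeval_algHom_apply, Polynomial.coe_aeval_eq_eval]

lemma low_tendsto (μ : Measure (Sph n)) [IsFiniteMeasure μ] (ρ : Pol n) (m : ℕ) (r : Sph n → ℝ)
    (hr : ∀ u : Sph n, ev u.1 ρ = r u) (hr1 : ∀ u, |r u| ≤ 1) (F : ℕ → Polynomial ℂ)
    (h2 : ∀ j ≤ m, ∀ k (t : ℝ), |t| ≤ 1 → ‖(Polynomial.derivative^[j] (F k)).eval (t:ℂ)‖ ≤ 1)
    (h3 : ∀ j ≤ m, ∀ t : ℝ, |t| ≤ 1 → (j < m ∨ t ≠ 0) →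
      Tendsto (fun k => (Polynomial.derivative^[j] (F k)).eval (t:ℂ)) atTop (𝓝 0))
    {φ : Polynomial ℂ → Pol n} (h : φ ∈ low ρ m) :
    ∀ a : Pol n, Tendsto (fun k => ∫ u, ev u.1 (a * φ (F k)) ∂μ) atTop (𝓝 0) := by
  induction h using Submodule.span_induction with
  | mem φ hφ =>
    obtain ⟨j, hj, rfl⟩ := hφ
    intro a
    obtain ⟨M, hM⟩ := exists_bound _ (continuous_ev' a)
    have := tendsto_integral_of_dominated_convergence (μ := μ)
      (F := fun k u => ev u.1 (a * dcomp ρ j (F k))) (f := fun _ => 0) (fun _ => M)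
      (fun k => (continuous_ev' _).aestronglyMeasurable) (integrable_const _)
      (fun k => Eventually.of_forall fun u => by
        rw [map_mul, ev_dcomp, hr, norm_mul]
        exact (mul_le_of_le_one_right (norm_nonneg _) (h2 j hj.le k _ (hr1 u))).trans (hM u))
      (Eventually.of_forall fun u => by
        simp only [map_mul, ev_dcomp, hr]
        simpa using (h3 j hj.le _ (hr1 u) (Or.inl hj)).const_mul (ev u.1 a))
    simpa using this
  | zero => intro a; simp
  | add φ ψ _ _ h1 h2 =>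
    intro a
    have := (h1 a).add (h2 a)
    rw [add_zero] at this
    refine this.congr fun k => ?_
    rw [← integral_add (integrable_of_continuous _ (continuous_ev' _))
      (integrable_of_continuous _ (continuous_ev' _))]
    simp only [Pi.add_apply, mul_add, map_add]
  | smul b φ _ h1 =>
    intro a
    simpa only [Pi.smul_apply, smul_eq_mul, mul_assoc] using h1 (a * b)

/-- the real part of the Hermitian product as a polynomial -/
noncomputable def rho (v : Cn n) : Pol n :=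
  ∑ i, (C ((starRingEnd ℂ) (v i) / 2) * X (Sum.inl i) + C (v i / 2) * X (Sum.inr i))

lemma ev_rho (u v : Cn n) : ev u (rho v) = ((herm u v).re : ℝ) := by
  rw [Complex.re_eq_add_conj]
  simp only [rho, herm, map_sum, map_add, map_mul, ev_C, ev_inl, ev_inr, Complex.conj_conj]
  rw [← Finset.sum_add_distrib, Finset.sum_div]
  exact Finset.sum_congr rfl fun i _ => by ring

lemma ev_Lb_rho (u v : Cn n) (j k : Fin n) :
    ev u (Lb j k (rho v)) = (u k * v j - u j * v k) / 2 := by
  simp only [rho, map_sum, map_add, Derivation.leibniz, derivation_C, Lb_inl, Lb_inr, smul_eq_mul,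
    mul_zero, add_zero, zero_add, map_mul, map_sub, ev_C, apply_ite (ev u), ev_inl, map_zero,
    mul_sub, mul_ite, Finset.sum_sub_distrib, Finset.sum_ite_eq', Finset.mem_univ, if_true]
  ring

lemma ev_Lh_rho (u v : Cn n) (j k : Fin n) :
    ev u (Lh j k (rho v)) = (starRingEnd ℂ) ((u k * v j - u j * v k) / 2) := by
  simp only [rho, map_sum, map_add, Derivation.leibniz, derivation_C, Lh_inl, Lh_inr, smul_eq_mul,
    mul_zero, add_zero, zero_add, map_mul, map_sub, ev_C, apply_ite (ev u), ev_inr, map_zero,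
    mul_sub, mul_ite, Finset.sum_sub_distrib, Finset.sum_ite_eq', Finset.mem_univ, if_true,
    map_div₀, map_ofNat]
  ring

lemma herm_eq_inner (z w : Cn n) : herm z w = inner ℂ w z := by
  simp [herm, PiLp.inner_apply]

lemma norm_herm_le (z w : Cn n) : ‖herm z w‖ ≤ ‖z‖ * ‖w‖ := by
  rw [herm_eq_inner, mul_comm]; exact norm_inner_le_norm _ _

lemma key_null {μ : Measure (Sph n)} (hμ : μ ∈ PE n) (v : Cn n) (hv : ‖v‖ ≤ 1) (j k : Fin n) :
    μ {u | (herm u.1 v).re = 0 ∧ u.1 k * v j ≠ u.1 j * v k} = 0 := by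
  have := hμ.1
  obtain ⟨F, h1, h2, h3⟩ := antider_iter 6
  set ρ := rho v with hρ
  set χ : Pol n := Lb j k ρ * Lb j k ρ with hχ
  have t0 : (fun F => χ * dcomp ρ 0 F) - χ • dcomp ρ 0 ∈ low ρ 0 := by
    have : (fun F => χ * dcomp ρ 0 F) = χ • dcomp ρ 0 := rfl
    rw [this, sub_self]; exact Submodule.zero_mem _
  have t6 := D_top (Lb j k) ρ _ _ _ (D_top (Lb j k) ρ _ _ _ (D_top (Lh j k) ρ _ _ _
    (D_top (Lh j k) ρ _ _ _ (D_top (Lh j k) ρ _ _ _ (D_top (Lh j k) ρ _ _ _ t0)))))
  set c := Lb j k ρ * (Lb j k ρ * (Lh j k ρ * (Lh j k ρ * (Lh j k ρ * (Lh j k ρ * χ))))) with hc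
  set r : Sph n → ℝ := fun u => (herm u.1 v).re with hr
  have hr1 : ∀ u, |r u| ≤ 1 := by
    intro u
    refine (Complex.abs_re_le_norm _).trans ((norm_herm_le _ _).trans ?_)
    rw [norm_eq_of_mem_sphere u, one_mul]; exact hv
  have hlim := low_tendsto μ ρ 6 r (fun u => ev_rho u.1 v) hr1 F h2 h3 t6 1
  set h : Sph n → ℝ := fun u => Complex.normSq ((u.1 k * v j - u.1 j * v k) / 2) ^ 4 with hh
  have hcont : Continuous h := by
    simp only [hh]
    exact (Complex.continuous_normSq.comp (by fun_prop)).pow 4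
  have hrcont : Continuous r := by
    simp only [hr, herm]; fun_prop
  have hh0 : ∀ u, 0 ≤ h u := fun u => pow_nonneg (Complex.normSq_nonneg _) _
  have hevc : ∀ u : Sph n, ev u.1 c = h u := by
    intro u
    simp only [hc, hχ, hρ, map_mul, ev_Lb_rho, ev_Lh_rho, hh]
    push_cast
    rw [← Complex.mul_conj]
    ring
  have hk : ∀ l, ∫ u, ev u.1 (1 * ((fun F => Lb j k (Lb j k (Lh j k (Lh j k (Lh j k (Lh j k
      (χ * dcomp ρ 0 F))))))) - c • dcomp ρ 6) (F l)) ∂μ
      = ((- ∫ u, h u * (1 - r u ^ 2) ^ l ∂μ : ℝ) : ℂ) := by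
    intro l
    simp only [one_mul, Pi.sub_apply, Pi.smul_apply, smul_eq_mul, map_sub]
    rw [integral_sub (integrable_of_continuous _ (continuous_ev' _))
      (integrable_of_continuous _ (continuous_ev' _))]
    have := PE_Pop hμ j k (χ * dcomp ρ 0 (F l))
    unfold Pop at this
    rw [this, zero_sub, Complex.ofReal_neg, ← integral_complex_ofReal]
    congr 1
    refine integral_congr_ae (Eventually.of_forall fun u => ?_)
    simp only [map_mul, hevc, ev_dcomp, h1, hρ, ev_rho]
    simp [hr]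
  have hlim2 : Tendsto (fun l => ∫ u, h u * (1 - r u ^ 2) ^ l ∂μ) atTop (𝓝 0) := by
    have h4 := (Complex.continuous_re.tendsto _).comp (hlim.congr hk)
    have h5 := h4.neg
    simpa [Function.comp_def] using h5
  have hZ : MeasurableSet {u | r u = 0} := (isClosed_eq hrcont continuous_const).measurableSet
  have hint : Integrable (Set.indicator {u | r u = 0} h) μ :=
    (integrable_of_continuous _ hcont).indicator hZ
  have hle : ∫ u, Set.indicator {u | r u = 0} h u ∂μ ≤ 0 := by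
    refine ge_of_tendsto' hlim2 fun l => ?_
    refine integral_mono hint (integrable_of_continuous _ (by fun_prop)) fun u => ?_
    by_cases hu : r u = 0
    · rw [Set.indicator_of_mem (show u ∈ {u | r u = 0} from hu)]; simp [hu]
    · rw [Set.indicator_of_notMem (show u ∉ {u | r u = 0} from hu)]
      refine mul_nonneg (hh0 u) (pow_nonneg ?_ _)
      have := hr1 u
      rw [← sq_abs]; nlinarith [abs_nonneg (r u)]
  have hnn : 0 ≤ Set.indicator {u | r u = 0} h := Set.indicator_nonneg fun u _ => hh0 u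
  have hzero := (integral_eq_zero_iff_of_nonneg hnn hint).mp
    (le_antisymm hle (integral_nonneg hnn))
  rw [Filter.EventuallyEq, ae_iff] at hzero
  refine measure_mono_null (fun u hu => ?_) hzero
  simp only [Set.mem_ofPred_eq] at hu ⊢
  rw [Set.indicator_of_mem (show u ∈ {u | r u = 0} from hu.1)]
  refine pow_ne_zero _ ?_
  rw [Ne, Complex.normSq_eq_zero]
  exact div_ne_zero (sub_ne_zero.mpr hu.2) two_ne_zero

lemma herm_smul_right (u v : Cn n) (a : ℝ) : herm u ((a : ℂ) • v) = a * herm u v := by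
  simp only [herm, PiLp.smul_apply, smul_eq_mul, map_mul, Complex.conj_ofReal, Finset.mul_sum]
  exact Finset.sum_congr rfl fun i _ => by ring

lemma key_null' {μ : Measure (Sph n)} (hμ : μ ∈ PE n) (v : Cn n) (hv : v ≠ 0) :
    μ {u | (herm u.1 v).re = 0 ∧ ∃ j k, u.1 k * v j ≠ u.1 j * v k} = 0 := by
  have h0 : 0 < ‖v‖ := norm_pos_iff.mpr hv
  have h1 : ‖(((‖v‖⁻¹ : ℝ) : ℂ) • v)‖ ≤ 1 := by
    rw [norm_smul, Complex.norm_real, norm_inv, norm_norm, inv_mul_cancel₀ h0.ne']
  refine measure_mono_null ?_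
    (measure_iUnion_null fun j => measure_iUnion_null fun k => key_null hμ _ h1 j k)
  rintro u ⟨hu1, j, k, hu2⟩
  simp only [Set.mem_iUnion, Set.mem_ofPred_eq]
  refine ⟨j, k, ?_, fun h => hu2 ?_⟩
  · rw [herm_smul_right, Complex.re_ofReal_mul, hu1, mul_zero]
  · simp only [PiLp.smul_apply, smul_eq_mul] at h
    have h2 : ((‖v‖⁻¹ : ℝ) : ℂ) ≠ 0 := Complex.ofReal_ne_zero.mpr (inv_ne_zero h0.ne')
    apply mul_left_cancel₀ h2
    linear_combination h

lemma complex_hyperplane_null {μ : Measure (Sph n)} (hμ : μ ∈ PE n) (v : Cn n) (hv : v ≠ 0) :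
    μ {u | herm u.1 v = 0} = 0 := by
  refine measure_mono_null (fun u hu => ?_) (key_null' hμ v hv)
  simp only [Set.mem_ofPred_eq] at hu ⊢
  refine ⟨by rw [hu]; rfl, ?_⟩
  by_contra hcon
  push Not at hcon
  have h1 : ∀ k, u.1 k * herm v v = 0 := by
    intro k
    have : u.1 k * herm v v = herm u.1 v * v k := by
      simp only [herm, Finset.mul_sum, Finset.sum_mul]
      exact Finset.sum_congr rfl fun j _ => by
        linear_combination (starRingEnd ℂ) (v j) * hcon j k
    rw [this, hu, zero_mul]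
  have h2 : herm v v ≠ 0 := by
    rw [herm_eq_inner]; exact inner_self_ne_zero.mpr hv
  have h3 : u.1 = 0 := by
    ext k; exact (mul_eq_zero.mp (h1 k)).resolve_right h2
  have h4 := norm_eq_of_mem_sphere u
  rw [h3] at h4; simp at h4

theorem real_hyperplane_null (hn : 2 ≤ n) {μ : Measure (Sph n)} (hμ : μ ∈ PE n) (v : Cn n)
    (hv : v ≠ 0) : μ {u | (herm u.1 v).re = 0} = 0 := by
  obtain ⟨j, hj⟩ : ∃ j, v j ≠ 0 := by
    by_contra h
    push Not at h
    exact hv (by ext j; exact h j)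
  have : Nontrivial (Fin n) := Fin.nontrivial_iff_two_le.mpr hn
  obtain ⟨k, hk⟩ := exists_ne j
  set v' : Cn n := EuclideanSpace.single k ((starRingEnd ℂ) (v j))
    - EuclideanSpace.single j ((starRingEnd ℂ) (v k)) with hv'
  have h1 : v' ≠ 0 := by
    intro h
    have := congrArg (fun w : Cn n => w k) h
    simp [hv', hk, hj] at this
  have h2 : ∀ u : Cn n, herm u v' = u k * v j - u j * v k := by
    intro u
    simp [herm, hv', mul_sub, Finset.sum_sub_distrib, apply_ite (starRingEnd ℂ)]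
  refine measure_mono_null (fun u hu => ?_)
    (measure_union_null (key_null' hμ v hv) (complex_hyperplane_null hμ v' h1))
  simp only [Set.mem_ofPred_eq, Set.mem_union] at hu ⊢
  by_cases h : u.1 k * v j = u.1 j * v k
  · right; rw [h2, h, sub_self]
  · left; exact ⟨hu, j, k, h⟩

theorem real_subspace_null (hn : 2 ≤ n) {μ : Measure (Sph n)} (hμ : μ ∈ PE n)
    (V : Submodule ℝ (Cn n)) (hV : V ≠ ⊤) : μ {u | u.1 ∈ V} = 0 := by
  obtain ⟨f, hf0, hf⟩ := Submodule.exists_le_ker_of_lt_top V (lt_top_iff_ne_top.mpr hV)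
  set v : Cn n := WithLp.toLp 2 fun i => (f (EuclideanSpace.single i 1) : ℂ)
    + f (EuclideanSpace.single i Complex.I) * Complex.I with hv
  have h1 : ∀ u : Cn n, (herm u v).re = f u := by
    intro u
    have h2 : u = ∑ i, ((u i).re • EuclideanSpace.single i (1:ℂ)
        + (u i).im • EuclideanSpace.single i Complex.I) := by
      ext l
      simp [Finset.sum_apply, Finset.sum_add_distrib, Pi.single_apply]
    conv_rhs => rw [h2]
    simp only [herm, hv, map_sum, map_add, map_smul, Complex.re_sum, smul_eq_mul]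
    refine Finset.sum_congr rfl fun i _ => ?_
    simp
  have h3 : v ≠ 0 := by
    intro h
    apply hf0
    ext u
    rw [← h1, h]; simp [herm]
  refine measure_mono_null (fun u hu => ?_) (real_hyperplane_null hn hμ v h3)
  simp only [Set.mem_ofPred_eq] at hu ⊢
  rw [h1]; exact hf hu

end Pool.Agent.Lib.MP_ab521b_an
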