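import Mathlib
import Pool.Agent.Lib.MP_ab521b_an.Null

/-! The surface measure represents the identity map, so `P_H(S)` is nonempty. -/

namespace Pool.Agent.Lib.MP_ab521b_an

open MeasureTheory Metric MvPolynomial Filter Topology

variable {n : ℕ}

lemma sum_normSq (u : Sph n) : ∑ k, (starRingEnd ℂ) (u.1 k) * u.1 k = 1 := by
  have h := herm_eq_inner u.1 u.1
  rw [inner_self_eq_norm_sq_to_K, norm_eq_of_mem_sphere u] at h
  simp only [herm] at h
  simpa [mul_comm] using h

lemma sigma_mem_PE (hn : 0 < n) : sigma n ∈ PE n := by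
  have := sigma_prob hn
  refine ⟨this, ?_⟩
  let Λ : C(Sph n, ℂ) →L[ℂ] ℂ := LinearMap.mkContinuous
    { toFun := fun g => ∫ u, g u ∂(sigma n)
      map_add' := fun g h => integral_add (integrable_of_continuous _ g.continuous)
        (integrable_of_continuous _ h.continuous)
      map_smul' := fun a g => integral_smul a g } 1 (fun g => by
        have := norm_integral_le_of_norm_le_const (μ := sigma n) (f := g) (C := ‖g‖)
          (Eventually.of_forall g.norm_coe_le_norm)
        simpa using this)
  refine ⟨Λ, subset_closure ⟨∑ k, fun u : Sph n => (starRingEnd ℂ) (u.1 k)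
    * ∏ i, u.1 i ^ (Pi.single k 1 : Fin n → ℕ) i, ?_, fun g => ?_⟩, fun g => by simp only [mul_one]; rfl⟩
  · refine Submodule.sum_mem _ fun k _ => Submodule.subset_span ⟨k, Pi.single k 1, ?_, Or.inl rfl⟩
    intro h
    have := congrFun h k
    simp at this
  · change ∫ u, g u ∂(sigma n) = _
    refine integral_congr_ae (Eventually.of_forall fun u => ?_)
    have h1 : ∀ k, ∏ i, u.1 i ^ (Pi.single k 1 : Fin n → ℕ) i = u.1 k := by
      intro k
      rw [Finset.prod_eq_single k (fun i _ hi => by simp [hi]) (by simp)]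
      simp
    simp only [Finset.sum_apply, h1, sum_normSq, mul_one]

/-- multiplication by a unimodular scalar -/
noncomputable def scal (c : ℂ) (hc : ‖c‖ = 1) : Cn n ≃ₗᵢ[ℝ] Cn n :=
  LinearIsometry.toLinearIsometryEquiv
    { toFun := fun u => c • u
      map_add' := fun u v => smul_add c u v
      map_smul' := fun a u => smul_comm c a u
      norm_map' := fun u => by simp [norm_smul, hc] } rfl

lemma integral_zero_of_scal (g : Sph n → ℂ) (hg : Continuous g) (c : ℂ) (hc : ‖c‖ = 1)
    (h : ∀ u, g (sphMap (scal c hc) u) = - g u) : ∫ u, g u ∂(sigma n) = 0 := by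
  have h1 := integral_sphMap (scal c hc) g hg
  simp only [h, integral_neg] at h1
  linear_combination (-1 / 2) * h1

lemma herm_scal (z : Cn n) (c : ℂ) (hc : ‖c‖ = 1) (u : Sph n) :
    herm z (sphMap (scal c hc) u).1 = (starRingEnd ℂ) c * herm z u.1 := by
  change herm z (c • u.1) = _
  simp only [herm, PiLp.smul_apply, smul_eq_mul, map_mul, Finset.mul_sum]
  exact Finset.sum_congr rfl fun i _ => by ring

lemma coord_scal (c : ℂ) (hc : ‖c‖ = 1) (u : Sph n) (j : Fin n) :
    (sphMap (scal c hc) u).1 j = c * u.1 j := rfl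

lemma exists_root (m : ℕ) (hm : m ≠ 0) : ∃ c : ℂ, ‖c‖ = 1 ∧ (starRingEnd ℂ) c ^ m = -1 := by
  obtain ⟨d, hd⟩ := IsAlgClosed.exists_pow_nat_eq (-1 : ℂ) (Nat.pos_of_ne_zero hm)
  refine ⟨(starRingEnd ℂ) d, ?_, by simpa using hd⟩
  have h1 : ‖d‖ ^ m = 1 := by rw [← norm_pow, hd]; simp
  rw [Complex.norm_conj]
  exact (pow_eq_one_iff_of_nonneg (norm_nonneg _) hm).mp h1

lemma continuous_herm (z : Cn n) : Continuous fun u : Sph n => herm z u.1 := by
  simp only [herm]; fun_prop

lemma integral_herm_pow (z : Cn n) (m : ℕ) (hm : m ≠ 0) :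
    ∫ u, herm z u.1 ^ m ∂(sigma n) = 0 := by
  obtain ⟨c, hc, hc'⟩ := exists_root m hm
  refine integral_zero_of_scal _ ((continuous_herm z).pow m) c hc fun u => ?_
  rw [herm_scal, mul_pow, hc']; ring

lemma integral_coord_herm_pow (z : Cn n) (j : Fin n) (m : ℕ) (hm : m ≠ 1) :
    ∫ u, u.1 j * herm z u.1 ^ m ∂(sigma n) = 0 := by
  have hcont : Continuous fun u : Sph n => u.1 j * herm z u.1 ^ m :=
    Continuous.mul (by fun_prop) ((continuous_herm z).pow m)
  rcases m with _ | m
  · refine integral_zero_of_scal _ hcont (-1) (by simp) fun u => ?_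
    rw [coord_scal]; ring
  · obtain ⟨c, hc, hc'⟩ := exists_root m (by omega)
    refine integral_zero_of_scal _ hcont c hc fun u => ?_
    have h1 : c * (starRingEnd ℂ) c = 1 := by
      rw [Complex.mul_conj, Complex.normSq_eq_norm_sq, hc]; simp
    rw [herm_scal, coord_scal, mul_pow, pow_succ, hc']
    linear_combination (-(u.1 j * herm z u.1 ^ (m + 1))) * h1

lemma integral_coord_conj (hn : 0 < n) (j k : Fin n) :
    ∫ u, u.1 j * (starRingEnd ℂ) (u.1 k) ∂(sigma n) = if k = j then 1 / (n:ℂ) else 0 := by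
  have := sigma_prob hn
  have hint : ∀ a b : Fin n,
      Integrable (fun u : Sph n => u.1 a * (starRingEnd ℂ) (u.1 b)) (sigma n) :=
    fun a b => integrable_of_continuous _ (by fun_prop)
  split_ifs with h
  · subst h
    have h1 : ∀ l, ∫ u, u.1 l * (starRingEnd ℂ) (u.1 l) ∂(sigma n)
        = ∫ u, u.1 k * (starRingEnd ℂ) (u.1 k) ∂(sigma n) := by
      intro l
      by_cases hl : l = k
      · rw [hl]
      have h2 := (integral_L k l (X (Sum.inr k) * X (Sum.inr l))).2
      simp only [Derivation.leibniz, Lb_inr, if_true, if_neg hl, if_neg (Ne.symm hl), smul_eq_mul,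
        map_add, map_mul, map_sub, map_zero, ev_inl, ev_inr] at h2
      rw [← sub_eq_zero, ← integral_sub (hint _ _) (hint _ _), ← h2]
      exact integral_congr_ae (Eventually.of_forall fun u => by ring)
    have h3 : ∑ l, ∫ u, u.1 l * (starRingEnd ℂ) (u.1 l) ∂(sigma n) = 1 := by
      rw [← integral_finsetSum _ fun l _ => hint l l]
      have : ∀ u : Sph n, ∑ l, u.1 l * (starRingEnd ℂ) (u.1 l) = 1 := fun u => by
        rw [← sum_normSq u]; exact Finset.sum_congr rfl fun l _ => mul_comm _ _
      simp [this]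
    simp only [h1, Finset.sum_const, Finset.card_univ, Fintype.card_fin, nsmul_eq_mul] at h3
    have hn' : (n:ℂ) ≠ 0 := by exact_mod_cast hn.ne'
    rw [eq_div_iff hn', mul_comm, h3]
  · have h2 := (integral_L k j (X (Sum.inr k) * X (Sum.inr k))).2
    simp only [Derivation.leibniz, Lb_inr, if_true, if_neg h, smul_eq_mul,
      map_add, map_mul, map_sub, map_zero, ev_inl, ev_inr] at h2
    have h3 : ∫ u, 2 * (u.1 j * (starRingEnd ℂ) (u.1 k)) ∂(sigma n) = 0 := by
      rw [← h2]
      exact integral_congr_ae (Eventually.of_forall fun u => by ring)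
    rw [integral_const_mul] at h3
    exact (mul_eq_zero.mp h3).resolve_left two_ne_zero

lemma integral_coord_herm (hn : 0 < n) (z : Cn n) (j : Fin n) :
    ∫ u, u.1 j * herm z u.1 ∂(sigma n) = z j / n := by
  have h1 : ∀ u : Sph n, u.1 j * herm z u.1 = ∑ k, z k * (u.1 j * (starRingEnd ℂ) (u.1 k)) := by
    intro u
    simp only [herm, Finset.mul_sum]
    exact Finset.sum_congr rfl fun k _ => by ring
  simp only [h1]
  rw [integral_finsetSum _ fun k _ => integrable_of_continuous _ (by fun_prop)]
  simp only [integral_const_mul, integral_coord_conj hn, mul_ite, mul_zero, Finset.sum_ite_eq',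
    Finset.mem_univ, if_true]
  ring

lemma norm_herm_lt {z : Cn n} (u : Sph n) : ‖herm z u.1‖ ≤ ‖z‖ := by
  have := norm_herm_le z u.1
  rwa [norm_eq_of_mem_sphere u, mul_one] at this

lemma hasSum_kernel {z : Cn n} (hz : ‖z‖ < 1) (g : Sph n → ℂ) (hg : Continuous g) :
    HasSum (fun m : ℕ => ((m + n).choose n : ℂ) * ∫ u, g u * herm z u.1 ^ m ∂(sigma n))
      (∫ u, g u * (1 / (1 - herm z u.1) ^ (n + 1)) ∂(sigma n)) := by
  obtain ⟨M, hM⟩ := exists_bound g hg
  have hs := (hasSum_choose_mul_geometric_of_norm_lt_one n (r := ‖z‖)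
    (by rwa [norm_norm])).summable
  have := hasSum_integral_of_dominated_convergence (μ := sigma n)
    (F := fun (m : ℕ) u => ((m + n).choose n : ℂ) * (g u * herm z u.1 ^ m))
    (f := fun u => g u * (1 / (1 - herm z u.1) ^ (n + 1)))
    (fun m _ => M * (((m + n).choose n : ℝ) * ‖z‖ ^ m))
    (fun m => (continuous_const.mul (hg.mul ((continuous_herm z).pow m))).aestronglyMeasurable)
    (fun m => Eventually.of_forall fun u => by
      rw [norm_mul, norm_mul, norm_pow, Complex.norm_natCast, mul_left_comm]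
      refine mul_le_mul (hM u) (mul_le_mul_of_nonneg_left
        (pow_le_pow_left₀ (norm_nonneg _) (norm_herm_lt u) m) (Nat.cast_nonneg _))
        (by positivity) ((norm_nonneg _).trans (hM u)))
    (Eventually.of_forall fun u => hs.mul_left M) (integrable_const _)
    (Eventually.of_forall fun u => by
      have h1 := (hasSum_choose_mul_geometric_of_norm_lt_one n
        ((norm_herm_lt u).trans_lt hz)).mul_left (g u)
      simpa only [mul_left_comm (g u)] using h1)
  simpa only [integral_const_mul] using this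

lemma kernel_const (hn : 0 < n) {z : Cn n} (hz : ‖z‖ < 1) :
    ∫ u, 1 / (1 - herm z u.1) ^ (n + 1) ∂(sigma n) = 1 := by
  have := sigma_prob hn
  have h1 := hasSum_kernel hz (fun _ => 1) continuous_const
  simp only [one_mul] at h1
  have h2 := hasSum_single (f := fun m : ℕ => ((m + n).choose n : ℂ)
    * ∫ u, herm z u.1 ^ m ∂(sigma n)) 0 (fun m hm => by rw [integral_herm_pow z m hm, mul_zero])
  rw [h1.unique h2]; simp

lemma kernel_coord (hn : 0 < n) {z : Cn n} (hz : ‖z‖ < 1) (j : Fin n) :
    ∫ u, u.1 j * (1 / (1 - herm z u.1) ^ (n + 1)) ∂(sigma n) = (n + 1) * (z j / n) := by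
  have h1 := hasSum_kernel hz (fun u => u.1 j) (by fun_prop)
  have h2 := hasSum_single (f := fun m : ℕ => ((m + n).choose n : ℂ)
    * ∫ u, u.1 j * herm z u.1 ^ m ∂(sigma n)) 1
    (fun m hm => by rw [integral_coord_herm_pow z j m hm, mul_zero])
  rw [h1.unique h2]
  simp only [pow_one, integral_coord_herm hn]
  rw [add_comm 1 n, Nat.choose_succ_self_right]
  push_cast; ring

theorem sigma_mem_PH (hn : 0 < n) : sigma n ∈ PH n := by
  have := sigma_prob hn
  refine ⟨sigma_mem_PE hn, id, ⟨differentiableOn_id, rfl, hasFDerivAt_id _, fun z _ hz => ?_⟩,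
    fun z hz => ?_⟩
  · rw [id, herm_eq_inner]
    have h1 : 0 < ‖z‖ := norm_pos_iff.mpr hz
    have h2 := inner_self_eq_norm_sq (𝕜 := ℂ) z
    change 0 < RCLike.re (inner ℂ z z)
    rw [h2]; positivity
  · rw [mem_ball_zero_iff] at hz
    have hne : ∀ u : Sph n, (1 - herm z u.1) ^ (n + 1) ≠ 0 := by
      intro u
      refine pow_ne_zero _ (sub_ne_zero.mpr fun h => ?_)
      have := (norm_herm_lt u).trans_lt hz
      rw [← h] at this; simp at this
    have hK : Continuous fun u : Sph n => 1 / (1 - herm z u.1) ^ (n + 1) :=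
      continuous_const.div ((continuous_const.sub (continuous_herm z)).pow _) hne
    have hK' : Continuous fun u : Sph n => 2 * (n:ℂ) / (1 - herm z u.1) ^ (n + 1) :=
      continuous_const.div ((continuous_const.sub (continuous_herm z)).pow _) hne
    have hcont : Continuous fun u : Sph n =>
        ((2 * n / (1 - herm z u.1) ^ (n + 1) : ℂ) • (u.1 - z) - (2 * n : ℂ) • u.1 - z) := by
      fun_prop
    unfold kernel
    ext j
    have h1 := (EuclideanSpace.proj (𝕜 := ℂ) j).integral_comp_comm
      (integrable_of_continuous (sigma n) hcont)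
    simp only [EuclideanSpace.coe_proj] at h1
    rw [← h1]
    have h2 : ∀ u : Sph n,
        ((2 * n / (1 - herm z u.1) ^ (n + 1) : ℂ) • (u.1 - z) - (2 * n : ℂ) • u.1 - z) j
        = 2 * n * (u.1 j * (1 / (1 - herm z u.1) ^ (n + 1)))
          - 2 * n * z j * (1 / (1 - herm z u.1) ^ (n + 1))
          - 2 * n * (u.1 j * herm z u.1 ^ 0) - z j := by
      intro u
      simp only [PiLp.sub_apply, PiLp.smul_apply, smul_eq_mul]
      ring
    simp only [h2]
    have i1 : Integrable (fun u : Sph n => 2 * n * (u.1 j * (1 / (1 - herm z u.1) ^ (n + 1))))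
        (sigma n) := integrable_of_continuous _ (by fun_prop)
    have i2 : Integrable (fun u : Sph n => 2 * n * z j * (1 / (1 - herm z u.1) ^ (n + 1)))
        (sigma n) := integrable_of_continuous _ (by fun_prop)
    have i3 : Integrable (fun u : Sph n => 2 * n * (u.1 j * herm z u.1 ^ 0)) (sigma n) :=
      integrable_of_continuous _ (by simp only [pow_zero]; fun_prop)
    have i12 : Integrable (fun u : Sph n => 2 * n * (u.1 j * (1 / (1 - herm z u.1) ^ (n + 1)))
        - 2 * n * z j * (1 / (1 - herm z u.1) ^ (n + 1))) (sigma n) := i1.sub i2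
    have i123 : Integrable (fun u : Sph n => 2 * n * (u.1 j * (1 / (1 - herm z u.1) ^ (n + 1)))
        - 2 * n * z j * (1 / (1 - herm z u.1) ^ (n + 1))
        - 2 * n * (u.1 j * herm z u.1 ^ 0)) (sigma n) := i12.sub i3
    rw [integral_sub i123 (integrable_const _), integral_sub i12 i3,
      integral_sub i1 i2, integral_const_mul, integral_const_mul, integral_const_mul,
      kernel_coord hn hz, kernel_const hn hz, integral_coord_herm_pow z j 0 (by omega)]
    have hn' : (n:ℂ) ≠ 0 := by exact_mod_cast hn.ne'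
    simp only [integral_const, probReal_univ, one_smul, id]
    field_simp
    ring

end Pool.Agent.Lib.MP_ab521b_an
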